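import Pool.Agent.Lib.MP_798203_nt.NL.Lift

/-!
# Prescribed digits of an analytic function and normality of the other analytic functions

Let `U` be a nonempty connected open subset of a real Banach space (for example of `ℝ^n`), `f` a
nonconstant real-analytic function on `U`, `r ≥ 2` and `B` a countable set of pairs (nonconstant
real-analytic function on `U`, base `≥ 2`).  The base `r` digits of
`f x` can be prescribed arbitrarily outside a set of density zero such that `g x` is normal to base `s`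
for all `(g, s) ∈ B`, if and only if there is no `(g, s) ∈ B` such that `g = q f + c` on `U` with `q`
rational and `r`, `s` have a common power.
With `U = ℝ`, `f x = a x`, `g x = x`: for every irrational `a` and every digit sequence there is a number `x` which
is normal to every base such that the digits of `a x` are the given ones outside a set of density zero.
-/

namespace Pool.Agent.Results.MP_798203_nt.AnalyticDensityZero

open Filter

/-- the digit number `j` (`j = 0, 1, 2, …`) after the point of the real number `y` in base `r` -/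
noncomputable def digit (r : ℕ) (y : ℝ) (j : ℕ) : ℤ := ⌊y * (r : ℝ) ^ (j + 1)⌋ % r

/-- `y` is normal to base `r`: every block `w` of `k` digits occurs in the base `r` expansion of the
fractional part of `y` with asymptotic frequency `r^(-k)` -/
def NormalTo (r : ℕ) (y : ℝ) : Prop :=
  ∀ (k : ℕ) (w : Fin k → ℕ), (∀ i, w i < r) →
    Tendsto (fun N : ℕ => (((Finset.range N).filter
      (fun n => ∀ i : Fin k, digit r y (n + i) = w i)).card : ℝ) / N)
      atTop (nhds ((1 / (r : ℝ)) ^ k))

theorem result {E : Type*} [NormedAddCommGroup E] [NormedSpace ℝ E] [CompleteSpace E]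
    (U : Set E) (hU : IsOpen U) (hUc : IsPreconnected U) (hUn : U.Nonempty)
    (f : E → ℝ) (hf : AnalyticOnNhd ℝ f U) (hfc : ¬ ∃ c : ℝ, ∀ x ∈ U, f x = c)
    (r : ℕ) (hr : 2 ≤ r) (B : Set ((E → ℝ) × ℕ)) (hB : B.Countable)
    (hB0 : ∀ t ∈ B, AnalyticOnNhd ℝ t.1 U ∧ (¬ ∃ c : ℝ, ∀ x ∈ U, t.1 x = c) ∧ 2 ≤ t.2) :
    (∀ t ∈ B, (∃ (q : ℚ) (c : ℝ), ∀ x ∈ U, t.1 x = (q : ℝ) * f x + c) →
        ∀ i j : ℕ, 0 < i → 0 < j → r ^ i ≠ t.2 ^ j) ↔
      ∀ d : ℕ → ℕ, (∀ j, d j < r) → ∃ x ∈ U, (∀ t ∈ B, NormalTo t.2 (t.1 x)) ∧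
        Tendsto (fun N : ℕ => (((Finset.range N).filter
          (fun j => digit r (f x) j ≠ (d j : ℤ))).card : ℝ) / N) atTop (nhds 0) := by
  have h := MP798203.NL.iff_zero_banach hU hUc hUn hf hfc hr hB hB0
  have e : (∀ t ∈ B, (∃ (q : ℚ) (c : ℝ), ∀ x ∈ U, t.1 x = (q : ℝ) * f x + c) →
        ∀ i j : ℕ, 0 < i → 0 < j → r ^ i ≠ t.2 ^ j) ↔
      ∀ t ∈ B, (∃ (q : ℚ) (c : ℝ), ∀ x ∈ U, t.1 x = (q : ℝ) * f x + c) →
        ¬ MP798203.AB.MulDep r t.2 := by
    constructor
    · rintro h t ht hc ⟨i, j, hi, hj, hij⟩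
      exact h t ht hc i j hi hj hij
    · rintro h t ht hc i j hi hj hij
      exact h t ht hc ⟨i, j, hi, hj, hij⟩
  rw [e]
  exact h

end Pool.Agent.Results.MP_798203_nt.AnalyticDensityZero
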