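import Pool.Agent.Lib.MP_798203_nt.NL.Lift

/-!
# Normality of the values of countably many analytic functions to countably many bases

Let `U` be a nonempty connected open subset of a real Banach space (for example of `ℝ^n`) and `A`, `B`
countable sets of pairs (nonconstant real-analytic function on `U`, base `≥ 2`).  The only relations
between the normality of the values `f x` to the bases `r` are `g = q f + c` with `q` rational, together
with `r^i = s^j`.
With `U = ℝ`, `f x = a x`, `g x = x`: for every irrational `a` there is a number `x` which is normal to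
every base such that `a x` is normal to no base.
-/

namespace Pool.Agent.Results.MP_798203_nt.AnalyticFunctions

open Filter

/-- the digit number `j` (`j = 0, 1, 2, …`) after the point of the real number `y` in base `r` -/
noncomputable def digit (r : ℕ) (y : ℝ) (j : ℕ) : ℤ := ⌊y * (r : ℝ) ^ (j + 1)⌋ % r

/-- `y` is normal to base `r`: every block `w` of `k` digits occurs in the base `r` expansion of the
fractional part of `y` with asymptotic frequency `r^(-k)` -/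
def NormalTo (r : ℕ) (y : ℝ) : Prop :=
  ∀ (k : ℕ) (w : Fin k → ℕ), (∀ i, w i < r) →
    Tendsto (fun N : ℕ => (((Finset.range N).filter
      (fun n => ∀ i : Fin k, digit r y (n + i) = w i)).card : ℝ) / N)
      atTop (nhds ((1 / (r : ℝ)) ^ k))

theorem result {E : Type*} [NormedAddCommGroup E] [NormedSpace ℝ E] [CompleteSpace E]
    (U : Set E) (hU : IsOpen U) (hUc : IsPreconnected U) (hUn : U.Nonempty)
    (A B : Set ((E → ℝ) × ℕ)) (hA : A.Countable) (hB : B.Countable)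
    (hA0 : ∀ p ∈ A, AnalyticOnNhd ℝ p.1 U ∧ (¬ ∃ c : ℝ, ∀ x ∈ U, p.1 x = c) ∧ 2 ≤ p.2)
    (hB0 : ∀ t ∈ B, AnalyticOnNhd ℝ t.1 U ∧ (¬ ∃ c : ℝ, ∀ x ∈ U, t.1 x = c) ∧ 2 ≤ t.2) :
    List.TFAE [
      ∀ p ∈ A, ∀ t ∈ B, (∃ (q : ℚ) (c : ℝ), ∀ x ∈ U, t.1 x = (q : ℝ) * p.1 x + c) →
        ∀ i j : ℕ, 0 < i → 0 < j → p.2 ^ i ≠ t.2 ^ j,
      ∀ c : (E → ℝ) × ℕ → ℝ, ∃ x ∈ U, (∀ t ∈ B, NormalTo t.2 (t.1 x)) ∧
        ∀ p ∈ A, ¬ NormalTo p.2 (p.1 x + c p),
      ∀ d : (E → ℝ) × ℕ → ℕ → ℕ, (∀ p j, 2 ≤ p.2 → d p j < p.2) →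
        ∃ x ∈ U, (∀ t ∈ B, NormalTo t.2 (t.1 x)) ∧
          ∀ p ∈ A, ∀ ε : ℝ, 0 < ε → ∃ᶠ N : ℕ in atTop, (1 - ε) * N ≤
            (((Finset.range N).filter
              (fun j => digit p.2 (p.1 x) j = (d p j : ℤ))).card : ℝ)] := by
  have h := MP798203.NL.tfae_banach hU hUc hUn A B hA hB hA0 hB0
  have e : (∀ p ∈ A, ∀ t ∈ B, (∃ (q : ℚ) (c : ℝ), ∀ x ∈ U, t.1 x = (q : ℝ) * p.1 x + c) →
        ∀ i j : ℕ, 0 < i → 0 < j → p.2 ^ i ≠ t.2 ^ j) ↔
      ∀ p ∈ A, ∀ t ∈ B, (∃ (q : ℚ) (c : ℝ), ∀ x ∈ U, t.1 x = (q : ℝ) * p.1 x + c) →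
        ¬ MP798203.AB.MulDep p.2 t.2 := by
    constructor
    · rintro h p hp t ht hc ⟨i, j, hi, hj, hij⟩
      exact h p hp t ht hc i j hi hj hij
    · rintro h p hp t ht hc i j hi hj hij
      exact h p hp t ht hc ⟨i, j, hi, hj, hij⟩
  rw [e]
  exact h

end Pool.Agent.Results.MP_798203_nt.AnalyticFunctions
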