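import Pool.Agent.Lib.MP_798203_nt.AB.MainJ

/-!
# Linear forms with prescribed digits, all other linear forms normal

Let `r ≥ 2`, let `a_1, …, a_m` be linearly independent vectors of `ℝ^n` and let `B` be a countable set of
pairs (nonzero vector of `ℝ^n`, base). The base `r` digits of `⟨a_1, x⟩, …, ⟨a_m, x⟩` can be prescribed
arbitrarily outside sets of positions of natural density zero in such a way that `⟨b, x⟩` is normal to
base `s` for all `(b, s) ∈ B`, if and only if `r` and `s` have no common power whenever `(b, s) ∈ B` and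
`b` is a rational linear combination of the `a_i`.
-/

namespace Pool.Agent.Results.MP_798203_nt.PrescribedTuples

open Filter

/-- the digit number `j` (`j = 0, 1, 2, …`) after the point of the real number `y` in base `r` -/
noncomputable def digit (r : ℕ) (y : ℝ) (j : ℕ) : ℤ := ⌊y * (r : ℝ) ^ (j + 1)⌋ % r

/-- `y` is normal to base `r`: every block `w` of `k` digits occurs in the base `r` expansion of the
fractional part of `y` with asymptotic frequency `r^(-k)` -/
def NormalTo (r : ℕ) (y : ℝ) : Prop :=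
  ∀ (k : ℕ) (w : Fin k → ℕ), (∀ i, w i < r) →
    Tendsto (fun N : ℕ => (((Finset.range N).filter
      (fun n => ∀ i : Fin k, digit r y (n + i) = w i)).card : ℝ) / N)
      atTop (nhds ((1 / (r : ℝ)) ^ k))

theorem result (n m r : ℕ) (hm : 0 < m) (hr : 2 ≤ r) (a : Fin m → Fin n → ℝ)
    (ha : LinearIndependent ℝ a) (B : Set ((Fin n → ℝ) × ℕ)) (hB : B.Countable)
    (hB0 : ∀ t ∈ B, t.1 ≠ 0 ∧ 2 ≤ t.2) :
    (∀ t ∈ B, (∃ c : Fin m → ℚ, t.1 = ∑ i, (c i : ℝ) • a i) →
        ∀ i j : ℕ, 0 < i → 0 < j → r ^ i ≠ t.2 ^ j) ↔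
      ∀ d : Fin m → ℕ → ℕ, (∀ i j, d i j < r) →
        ∃ x : Fin n → ℝ, (∀ t ∈ B, NormalTo t.2 (t.1 ⬝ᵥ x)) ∧
          ∀ i, Tendsto (fun N : ℕ => (((Finset.range N).filter
            (fun j => digit r (a i ⬝ᵥ x) j ≠ (d i j : ℤ))).card : ℝ) / N) atTop (nhds 0) := by
  have h := MP798203.AB.iffJ hm hr a ha B hB hB0
  have e : (∀ t ∈ B, (∃ c : Fin m → ℚ, t.1 = ∑ i, (c i : ℝ) • a i) →
        ∀ i j : ℕ, 0 < i → 0 < j → r ^ i ≠ t.2 ^ j) ↔
      ∀ t ∈ B, ∀ c : Fin m → ℚ, t.1 = ∑ i, (c i : ℝ) • a i → ¬ MP798203.AB.MulDep r t.2 := by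
    constructor
    · rintro h t ht c hc ⟨i, j, hi, hj, hij⟩
      exact h t ht ⟨c, hc⟩ i j hi hj hij
    · rintro h t ht ⟨c, hc⟩ i j hi hj hij
      exact h t ht c hc ⟨i, j, hi, hj, hij⟩
  rw [e]
  exact h

end Pool.Agent.Results.MP_798203_nt.PrescribedTuples
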